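import Mathlib
set_option autoImplicit false
namespace Pool.Agent.Results.MP_b62331_al.Counter

/-- A class of finite groups closed under isomorphism and subgroups. -/
def Closed (X : ∀ (G : Type) [Group G], Prop) : Prop :=
  (∀ (G : Type) [Group G], X G → Finite G) ∧
  (∀ (G G' : Type) [Group G] [Group G'], Nonempty (G ≃* G') → X G → X G') ∧
  ∀ (G : Type) [Group G] (H : Subgroup G), X G → X H

/-- In every finite `p`-group each maximal normal `X`-subgroup is a maximal `X`-subgroup. -/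
def MaxNormalMax (p : ℕ) (X : ∀ (G : Type) [Group G], Prop) : Prop :=
  ∀ (G : Type) [Group G] [Finite G], IsPGroup p G → ∀ H : Subgroup G, H.Normal → X H →
    (∀ L : Subgroup G, L.Normal → X L → ¬ H < L) → ∀ K : Subgroup G, X K → ¬ H < K

/-- The number `a_G(H)` of `X`-subgroups `K > H` with `|K : H| = p`. -/
noncomputable def aNum (p : ℕ) (X : ∀ (G : Type) [Group G], Prop) {G : Type} [Group G]
    (H : Subgroup G) : ℕ :=
  Set.ncard {K : Subgroup G | H < K ∧ X K ∧ H.relIndex K = p}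

def Y (p : ℕ) (G : Type) [Group G] : Prop :=
  (p ≠ 2 → ∀ g : G, g ^ p = 1) ∧ (p = 2 → ∀ g h : G, g ^ 2 = 1 → h ^ 2 = 1 → g ≠ 1 → h ≠ 1 → g = h)

def XX (p : ℕ) (G : Type) [Group G] : Prop :=
  Nat.card G ∣ p ^ 3 ∧ ((∀ a b : G, a * b = b * a) ∨ Y p G)

lemma XX_inj {p : ℕ} {G G' : Type} [Group G] [Group G'] (f : G' →* G)
    (hf : Function.Injective f) (h : XX p G) : XX p G' := by
  refine ⟨(Subgroup.card_dvd_of_injective f hf).trans h.1, h.2.imp (fun k a b => hf (by simp [k]))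
    fun k => ⟨fun e g => hf (by simp [k.1 e]), fun e a b h1 h2 h3 h4 => hf (k.2 e _ _ ?_ ?_ ?_ ?_)⟩⟩
  · rw [← map_pow, h1, map_one]
  · rw [← map_pow, h2, map_one]
  · rwa [Ne, map_eq_one_iff f hf]
  · rwa [Ne, map_eq_one_iff f hf]

section
variable {p : ℕ} [hp : Fact p.Prime] {G : Type} [Group G] [Finite G]

lemma step (hG : IsPGroup p G) (H N : Subgroup G) [H.Normal] [N.Normal] (h : H < N) :
    ∃ x ∈ N, ∃ L : Subgroup G, L.Normal ∧ H < L ∧ x ∈ L ∧ x ∉ H ∧ Nat.card L = Nat.card H * p ∧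
      (∀ y ∈ L, ∃ (i : ℤ), ∃ a ∈ H, y = x ^ i * a) ∧ ∀ g, g * x * g⁻¹ * x⁻¹ ∈ H := by
  let π := QuotientGroup.mk' H
  have hQ := hG.to_quotient H
  let M := N.map π
  have : M.Normal := Subgroup.Normal.map inferInstance π (QuotientGroup.mk'_surjective H)
  have nt : Nontrivial M := by
    obtain ⟨x, h1, h2⟩ := SetLike.exists_of_lt h
    exact ⟨⟨x, x, h1, rfl⟩, 1, fun e => h2 ((QuotientGroup.eq_one_iff x).1 (congrArg Subtype.val e))⟩
  obtain ⟨n, n0, hn⟩ := (hQ.to_subgroup M).nontrivial_iff_card.1 nt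
  obtain ⟨b, b1, b2⟩ := (hQ.of_equiv ConjAct.toConjAct
    ).exists_fixed_point_of_prime_dvd_card_of_fixed_point M (hn ▸ dvd_pow_self _ n0.ne')
    (a := 1) (fun g => smul_one g)
  have bc : b.1 ∈ Subgroup.center (G ⧸ H) := Subgroup.mem_center_iff.2 fun g =>
    mul_inv_eq_iff_eq_mul.1 (congrArg Subtype.val (b1 (ConjAct.toConjAct g)))
  have nt2 : Nontrivial (M ⊓ Subgroup.center (G ⧸ H) : Subgroup _) :=
    ⟨⟨b.1, b.2, bc⟩, 1, fun e => b2 (Subtype.ext (congrArg Subtype.val e).symm)⟩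
  obtain ⟨m, m0, hm⟩ := (hQ.to_subgroup _).nontrivial_iff_card.1 nt2
  obtain ⟨⟨_, ⟨x, x1, rfl⟩, x2⟩, x3⟩ := exists_prime_orderOf_dvd_card' p (hm ▸ dvd_pow_self _ m0.ne')
  replace x3 : orderOf (π x) = p := (Subgroup.orderOf_coe _).trans x3
  have x4 : x ∉ H := fun k => by
    rw [show π x = 1 from (QuotientGroup.eq_one_iff x).2 k, orderOf_one] at x3
    exact hp.out.one_lt.ne x3
  have x5 := Subgroup.mem_center_iff.1 x2
  refine ⟨x, x1, (Subgroup.zpowers (π x)).comap π, ?_, ?_, Subgroup.mem_zpowers _, x4, ?_, ?_,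
    fun g => (QuotientGroup.eq_one_iff _).1 (by
      have := x5 g
      simp only [QuotientGroup.mk_mul, QuotientGroup.mk_inv]
      rw [show (x : G ⧸ H) = π x from rfl, this]; simp)⟩
  · refine Subgroup.Normal.comap ⟨?_⟩ π
    rintro _ ⟨i, rfl⟩ g
    have := (show Commute g (π x) from x5 g).zpow_right i
    simp [this.eq]
  · refine SetLike.lt_iff_le_and_exists.2 ⟨fun a ha => ?_, x, Subgroup.mem_zpowers _, x4⟩
    rw [Subgroup.mem_comap, show π a = 1 from (QuotientGroup.eq_one_iff a).2 ha]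
    exact one_mem _
  · rw [← x3, ← Nat.card_zpowers]
    exact QuotientGroup.card_preimage_mk H (Subgroup.zpowers (π x) : Set (G ⧸ H))
  · rintro y ⟨i, hi⟩
    exact ⟨i, (x ^ i)⁻¹ * y, QuotientGroup.eq.1 hi, by simp⟩

omit [Finite G] in
lemma small (h : Nat.card G ∣ p ^ 2) (a b : G) : a * b = b * a := by
  obtain ⟨k, hk, e⟩ := (Nat.dvd_prime_pow hp.out).1 h
  have : IsMulCommutative G := by
    interval_cases k
    · have := (Nat.card_eq_one_iff_unique.1 e).1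
      exact ⟨⟨fun _ _ => Subsingleton.elim _ _⟩⟩
    · have := isCyclic_of_prime_card (e.trans (pow_one p))
      infer_instance
    · exact IsPGroup.isMulCommutative_of_card_eq_prime_sq e
  exact mul_comm' a b

lemma mnm : MaxNormalMax p (XX p) := by
  intro G _ _ hG H _ hH hm K hK lt
  have cK : Nat.card H < Nat.card K := Set.ncard_lt_ncard lt (Set.toFinite _)
  obtain ⟨k, hk, e⟩ := (Nat.dvd_prime_pow hp.out).1 hH.1
  obtain ⟨l, hl, e'⟩ := (Nat.dvd_prime_pow hp.out).1 hK.1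
  rw [e, e', Nat.pow_lt_pow_iff_right hp.out.one_lt] at cK
  have ab : ∀ a ∈ H, ∀ b ∈ H, a * b = b * a := fun a ha b hb => congrArg Subtype.val
    (small (p := p) (G := H) (e ▸ pow_dvd_pow _ (by omega)) ⟨a, ha⟩ ⟨b, hb⟩)
  by_cases k2 : k ≤ 1
  · obtain ⟨x, -, L, h1, h2, -, -, h3, -⟩ := step hG H ⊤ (lt.trans_le le_top)
    have : Nat.card L ∣ p ^ 2 := by rw [h3, e, ← pow_succ]; exact pow_dvd_pow _ (by omega)
    exact hm L h1 ⟨this.trans (pow_dvd_pow _ (by omega)), .inl (small this)⟩ h2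
  have hC : ¬ H < Subgroup.centralizer H := fun c => by
    obtain ⟨x, x1, L, h1, h2, -, -, h3, h4, -⟩ := step hG H _ c
    refine hm L h1 ⟨by rw [h3, e, ← pow_succ]; exact pow_dvd_pow _ (by omega), .inl ?_⟩ h2
    rintro ⟨a', ha'⟩ ⟨b', hb'⟩
    obtain ⟨i, a, ha, rfl⟩ := h4 a' ha'
    obtain ⟨j, b, hb, rfl⟩ := h4 b' hb'
    have c1 : Commute a x := x1 a ha
    have c2 : Commute b x := x1 b hb
    have c3 : Commute a b := ab a ha b hb
    exact Subtype.ext (Commute.mul_left (((Commute.refl x).zpow_zpow i j).mul_right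
      (c2.symm.zpow_left i)) ((c1.zpow_right j).mul_right c3))
  have hC' : Subgroup.centralizer H ≤ H := by
    by_contra c
    exact hC (lt_of_le_not_ge (fun a ha b hb => ab b hb a ha) c)
  have k3 : k = 2 := by omega
  rw [k3] at e
  have b0 : ⊥ < H := bot_lt_iff_ne_bot.2 (by
    rintro rfl
    exact (Nat.one_lt_pow two_ne_zero hp.out.one_lt).ne (by simpa using e))
  obtain ⟨z, z1, Z, h1, -, z2, -, h3, h4, h5⟩ := step hG ⊥ H b0
  have ZH : Z ≤ H := fun y hy => by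
    obtain ⟨i, a, ha, rfl⟩ := h4 y hy
    exact H.mul_mem (H.zpow_mem z1 i) (bot_le (a := H) ha)
  rw [Subgroup.card_bot, one_mul] at h3
  have pp : p < p ^ 2 := by nlinarith [hp.out.one_lt]
  obtain ⟨a, a1, L, -, -, -, -, k3, k4, k5⟩ := step hG Z H (ZH.lt_of_ne fun h => by
    rw [h, e] at h3; exact pp.ne' h3)
  have zc : ∀ y ∈ Z, ∀ g, Commute g y := fun y hy g => by
    obtain ⟨i, b, hb, rfl⟩ := h4 y hy
    have : Commute g z := show g * z = z * g by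
      simpa [mul_inv_eq_one, mul_inv_eq_iff_eq_mul] using h5 g
    simpa [Subgroup.mem_bot.1 hb] using this.zpow_right i
  have LH : L = H := Subgroup.eq_of_le_of_card_ge (fun y hy => by
    obtain ⟨i, b, hb, rfl⟩ := k4 y hy
    exact H.mul_mem (H.zpow_mem a1 i) (ZH hb)) (by rw [k3, h3, e, sq])
  have cen : ∀ g, Commute g a → g ∈ H := fun g hg => hC' fun y hy => by
    obtain ⟨i, b, hb, rfl⟩ := k4 y (LH ▸ hy)
    exact ((hg.zpow_right i).mul_right (zc b hb g)).symm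
  let f : G →* Z := MonoidHom.mk' (fun g => ⟨_, k5 g⟩) fun g h => Subtype.ext (by
    have := (zc _ (k5 h) g⁻¹).eq
    have t := (zc _ (k5 h) (a * g⁻¹ * a⁻¹)).eq
    show g * h * a * (g * h)⁻¹ * a⁻¹ = g * a * g⁻¹ * a⁻¹ * (h * a * h⁻¹ * a⁻¹)
    calc _ = g * ((h * a * h⁻¹ * a⁻¹) * (a * g⁻¹ * a⁻¹)) := by group
      _ = _ := by rw [← t]; group)
  have fk : f.ker ≤ H := fun g hg => cen g (show g * a = a * g by
    simpa [f, mul_inv_eq_one, mul_inv_eq_iff_eq_mul] using congrArg Subtype.val hg)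
  have i1 : H.index ∣ p := (Subgroup.index_dvd_of_le fk).trans (by
    rw [Subgroup.index_ker, ← h3]; exact Subgroup.card_subgroup_dvd_card _)
  have i2 := Nat.le_of_dvd hp.out.pos i1
  have : K = ⊤ := Subgroup.eq_top_of_le_card _ (by
    rw [← H.card_mul_index, e, e', show l = 3 by omega, pow_succ _ 2]
    exact Nat.mul_le_mul_left _ i2)
  exact hm K (this ▸ inferInstance) hK lt
end

@[ext] structure V (p : ℕ) where
  a : ZMod p
  b : ZMod p
  c : ZMod (p ^ 2)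
  deriving DecidableEq

section
variable {p : ℕ}

def ι (p : ℕ) (x : ZMod p) : ZMod (p ^ 2) := p * (x.cast : ℤ)
def r (p : ℕ) : ZMod (p ^ 2) →+* ZMod p := ZMod.castHom (dvd_pow_self p two_ne_zero) _

lemma ι_int (n : ℤ) : ι p n = p * n := by
  obtain ⟨k, hk⟩ := (ZMod.intCast_eq_intCast_iff_dvd_sub n ((n : ZMod p).cast : ℤ) p).1 (by simp)
  have : (p : ZMod (p ^ 2)) ^ 2 = 0 := by rw [← Nat.cast_pow, ZMod.natCast_self]
  rw [ι, sub_eq_iff_eq_add.1 hk]
  push_cast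
  linear_combination (k : ZMod (p ^ 2)) * this

lemma ι_add (x y : ZMod p) : ι p (x + y) = ι p x + ι p y := by
  obtain ⟨x, rfl⟩ := ZMod.intCast_surjective x
  obtain ⟨y, rfl⟩ := ZMod.intCast_surjective y
  rw [← Int.cast_add, ι_int, ι_int, ι_int]; push_cast; ring

lemma ι_zero : ι p 0 = 0 := by simp [ι]
lemma ι_r (c : ZMod (p ^ 2)) : ι p (r p c) = p * c := by
  obtain ⟨x, rfl⟩ := ZMod.intCast_surjective c
  rw [map_intCast, ι_int]
lemma r_ι (x : ZMod p) : r p (ι p x) = 0 := by simp [ι]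
lemma ι_inj (hp : p ≠ 0) (x : ZMod p) (h : ι p x = 0) : x = 0 := by
  obtain ⟨x, rfl⟩ := ZMod.intCast_surjective x
  rw [ι_int, ← Int.cast_natCast, ← Int.cast_mul, ZMod.intCast_zmod_eq_zero_iff_dvd] at h
  rw [ZMod.intCast_zmod_eq_zero_iff_dvd]
  push_cast at h
  exact Int.dvd_of_mul_dvd_mul_left (by simpa) (sq (p : ℤ) ▸ h)

instance : Mul (V p) := ⟨fun g h => ⟨g.a + h.a, g.b + h.b, g.c + h.c + ι p (g.a * h.b)⟩⟩
instance : One (V p) := ⟨⟨0, 0, 0⟩⟩
instance : Inv (V p) := ⟨fun g => ⟨-g.a, -g.b, -g.c - ι p (-g.a * g.b)⟩⟩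
lemma mul_def (g h : V p) : g * h = ⟨g.a + h.a, g.b + h.b, g.c + h.c + ι p (g.a * h.b)⟩ := rfl
instance : Group (V p) := Group.ofLeftAxioms
  (fun a b c => by
    simp only [mul_def, add_mul, mul_add, ι_add, V.mk.injEq]
    refine ⟨?_, ?_, ?_⟩ <;> ring)
  (fun a => by
    show (⟨_, _, _⟩ : V p) * _ = _
    simp [mul_def, ι_zero])
  (fun a => by
    show (⟨_, _, _⟩ : V p) * _ = ⟨_, _, _⟩
    simp only [mul_def, V.mk.injEq]
    refine ⟨?_, ?_, ?_⟩ <;> ring)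

def eqv : V p ≃ ZMod p × ZMod p × ZMod (p ^ 2) :=
  ⟨fun g => (g.a, g.b, g.c), fun x => ⟨x.1, x.2.1, x.2.2⟩, fun _ => rfl, fun _ => rfl⟩

lemma card_V : Nat.card (V p) = p ^ 4 := by
  rw [Nat.card_congr eqv, Nat.card_prod, Nat.card_prod, Nat.card_zmod, Nat.card_zmod]; ring

def π1 (p : ℕ) : V p →* Multiplicative (ZMod p) := MonoidHom.mk' (fun g => .ofAdd g.b)
  fun _ _ => rfl
def π2 (ε : ZMod p) : V p →* Multiplicative (ZMod p) :=
  MonoidHom.mk' (fun g => .ofAdd (r p g.c + ε * (g.a + g.b))) fun g h => by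
    simp only [mul_def, ← ofAdd_add, map_add, r_ι]; congr 1; ring

lemma pw (g : V p) (n : ℕ) :
    g ^ n = ⟨n * g.a, n * g.b, n * g.c + ι p (n.choose 2 * (g.a * g.b))⟩ := by
  induction n with
  | zero => simp [ι_zero]; rfl
  | succ n ih =>
    rw [pow_succ, ih, mul_def, Nat.choose_succ_succ' n 1]
    simp only [V.mk.injEq, Nat.cast_add, add_mul, ι_add, Nat.choose_one_right, mul_assoc]
    refine ⟨by simp, by simp, by simp; ring⟩

lemma cex [hp : Fact p.Prime] (ε : ZMod p) (h1 : Y p (π2 ε).ker)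
    (h2 : ∀ K : Subgroup (V p), (π1 p).ker ⊓ (π2 ε).ker ≤ K → Y p K → K ≤ (π2 ε).ker) :
    XX p ((π1 p).ker ⊓ (π2 ε).ker : Subgroup (V p)) ∧
      aNum p (XX p) ((π1 p).ker ⊓ (π2 ε).ker) = 2 := by
  have m1 : ∀ g : V p, g ∈ (π1 p).ker ↔ g.b = 0 := fun g => Iff.rfl
  have m2 : ∀ g : V p, g ∈ (π2 ε).ker ↔ r p g.c + ε * (g.a + g.b) = 0 := fun g => Iff.rfl
  have rs : ∀ t, ∃ c, r p c = t := ZMod.ringHom_surjective _
  have s1 : (π1 p).ker.map (π2 ε) = ⊤ := eq_top_iff.2 fun t _ => by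
    obtain ⟨c, hc⟩ := rs t.toAdd
    exact ⟨⟨0, 0, c⟩, rfl, by simp [π2, hc]⟩
  have s2 : (π2 ε).ker.map (π1 p) = ⊤ := eq_top_iff.2 fun t _ => by
    obtain ⟨c, hc⟩ := rs (-(ε * t.toAdd))
    exact ⟨⟨0, t.toAdd, c⟩, (m2 _).2 (by simp [hc]), rfl⟩
  have r1 : ((π1 p).ker ⊓ (π2 ε).ker).relIndex (π1 p).ker = p := by
    rw [Subgroup.inf_relIndex_left, Subgroup.relIndex_ker, s1]; simp
  have r2 : ((π1 p).ker ⊓ (π2 ε).ker).relIndex (π2 ε).ker = p := by
    rw [Subgroup.inf_relIndex_right, Subgroup.relIndex_ker, s2]; simp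
  have cd : ∀ (f : V p →* Multiplicative (ZMod p)) (K : Subgroup _), K.map f = ⊤ →
      Nat.card f.ker ∣ p ^ 3 := fun f K h => by
    have := f.ker.card_mul_index
    rw [Subgroup.index_ker, card_V, eq_top_iff.2 (h ▸ K.map_le_range f : ⊤ ≤ f.range),
      pow_succ _ 3] at this
    rw [Subgroup.card_top, show Nat.card (Multiplicative (ZMod p)) = p from Nat.card_zmod p] at this
    rw [mul_right_cancel₀ hp.out.ne_zero this]
  have x1 : XX p (π1 p).ker := ⟨cd _ _ s2, .inl fun a b => Subtype.ext (by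
    simp [mul_def, (m1 _).1 a.2, (m1 _).1 b.2, add_comm])⟩
  have x2 : XX p (π2 ε).ker := ⟨cd _ _ s1, .inr h1⟩
  refine ⟨XX_inj _ (Subgroup.inclusion_injective inf_le_left) x1, ?_⟩
  have lt : ∀ K, (π1 p).ker ⊓ (π2 ε).ker ≤ K → ((π1 p).ker ⊓ (π2 ε).ker).relIndex K = p →
      (π1 p).ker ⊓ (π2 ε).ker < K := fun K a b => a.lt_of_ne fun e => by
    rw [← e, Subgroup.relIndex_self] at b; exact hp.out.one_lt.ne b
  have eq : ∀ K L, (π1 p).ker ⊓ (π2 ε).ker ≤ K → K ≤ L →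
      ((π1 p).ker ⊓ (π2 ε).ker).relIndex K = p → ((π1 p).ker ⊓ (π2 ε).ker).relIndex L = p →
      K = L := fun K L a b c d => by
    have := Subgroup.relIndex_mul_relIndex _ _ _ a b
    rw [c, d, Nat.mul_eq_left hp.out.ne_zero, Subgroup.relIndex_eq_one] at this
    exact le_antisymm b this
  refine Set.ncard_eq_two.2 ⟨(π1 p).ker, (π2 ε).ker, fun e => ?_, Set.ext fun K => ⟨?_, ?_⟩⟩
  · have : (⟨0, 0, 1⟩ : V p) ∈ (π2 ε).ker := e ▸ (m1 _).2 rfl
    simpa [m2] using this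
  · rintro ⟨a, ⟨-, b | b⟩, c⟩
    · refine .inl (eq _ _ a.le (fun g hg => ?_) c r1)
      obtain ⟨t, ht⟩ := rs (-ε)
      have := congrArg (fun x : K => x.1.c)
        (b ⟨⟨1, 0, t⟩, a.le ⟨rfl, (m2 _).2 (by simp [ht])⟩⟩ ⟨g, hg⟩)
      exact ι_inj hp.out.ne_zero g.b (by simpa [mul_def, ι_zero, add_comm] using this)
    · exact .inr (eq _ _ a.le (h2 K a.le b) c r2)
  · rintro (rfl | rfl)
    · exact ⟨lt _ inf_le_left r1, x1, r1⟩
    · exact ⟨lt _ inf_le_right r2, x2, r2⟩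
end

instance : Fintype (V 2) := Fintype.ofEquiv _ eqv.symm

lemma k1 : ∀ g h : V 2, r 2 g.c + 1 * (g.a + g.b) = 0 → r 2 h.c + 1 * (h.a + h.b) = 0 →
    g ^ 2 = 1 → h ^ 2 = 1 → g ≠ 1 → h ≠ 1 → g = h := by decide +kernel
lemma k2 : ∀ g : V 2, r 2 g.c + 1 * (g.a + g.b) ≠ 0 → ∃ h : V 2, (h.b = 0 ∧
    r 2 h.c + 1 * (h.a + h.b) = 0) ∧ (g * h) ^ 2 = 1 ∧ g * h ≠ 1 ∧ g * h ≠ ⟨0, 0, 2⟩ := by
  decide +kernel
lemma k3 : r 2 2 + 1 * (0 + 0) = 0 ∧ (⟨0, 0, 2⟩ : V 2) ^ 2 = 1 ∧ (⟨0, 0, 2⟩ : V 2) ≠ 1 := by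
  decide +kernel

theorem result (p : ℕ) (hp : p.Prime) : ∃ X : ∀ (G : Type) [Group G], Prop,
    Closed X ∧ MaxNormalMax p X ∧ ∃ (G : Type) (_ : Group G) (_ : Finite G) (H : Subgroup G),
      IsPGroup p G ∧ X H ∧ aNum p X H ≠ 0 ∧ ¬ aNum p X H ≡ 1 [MOD p] := by
  have := Fact.mk hp
  obtain ⟨H, h1, h2⟩ : ∃ H : Subgroup (V p), XX p H ∧ aNum p (XX p) H = 2 := by
    by_cases e : p = 2
    · subst e
      refine ⟨_, cex 1 ⟨fun e => (e rfl).elim, fun _ g h a b c d => Subtype.ext (k1 _ _ g.2 h.2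
        (congrArg Subtype.val a) (congrArg Subtype.val b) (fun e => c (Subtype.ext e))
        fun e => d (Subtype.ext e))⟩ fun K a b g hg => ?_⟩
      by_contra k
      obtain ⟨h, c1, c2, c3, c4⟩ := k2 g k
      exact c4 (congrArg Subtype.val (b.2 rfl ⟨_, K.mul_mem hg (a c1)⟩
        ⟨⟨0, 0, 2⟩, a ⟨rfl, k3.1⟩⟩ (Subtype.ext c2) (Subtype.ext k3.2.1)
        (fun e => c3 (congrArg Subtype.val e)) fun e => k3.2.2 (congrArg Subtype.val e)))
    · have k : ∀ g : V p, g ^ p = ⟨0, 0, ι p (r p g.c)⟩ := fun g => by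
        have : ((p.choose 2 : ℕ) : ZMod p) = 0 := (ZMod.natCast_eq_zero_iff _ _).2
          (hp.dvd_choose_self two_ne_zero (lt_of_le_of_ne hp.two_le (Ne.symm e)))
        rw [pw, this, ι_r]; simp [ι_zero]
      refine ⟨_, cex 0 ⟨fun _ g => Subtype.ext ?_, fun h => (e h).elim⟩ fun K _ b g hg => ?_⟩
      · have : r p g.1.c = 0 := by simpa [π2] using g.2
        rw [Subgroup.coe_pow, k, this, ι_zero]; rfl
      · have := congrArg (fun x : K => x.1.c) (b.1 e ⟨g, hg⟩)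
        simp only [Subgroup.coe_pow, k] at this
        simpa [π2] using ι_inj hp.ne_zero _ this
  refine ⟨XX p, ⟨fun G _ h => Nat.finite_of_card_ne_zero fun e => ?_,
    fun G G' _ _ ⟨f⟩ => XX_inj f.symm.toMonoidHom f.symm.injective,
    fun G _ H => XX_inj H.subtype H.subtype_injective⟩, mnm, V p, inferInstance,
    Finite.of_equiv _ eqv.symm, H, IsPGroup.of_card card_V, h1, by simp [h2], fun h => ?_⟩
  · simpa [e, hp.ne_zero] using h.1
  · rw [h2] at h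
    exact hp.one_lt.ne' (Nat.dvd_one.1 ((Nat.modEq_iff_dvd' one_le_two).1 h.symm))

end Pool.Agent.Results.MP_b62331_al.Counter
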